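import Pool.Agent.Helper32_ABCT.Stmts2

/-!
# CG0: positivity of the facet data of a generic vertex (MP_a17fcb_ag)
-/

open MvPolynomial

namespace ABCT.H59

open FlatCell

variable {L A R : List ℕ} {ρ q d r : ℕ} {SA SB : Net}
    {gA : ℕ → MvPolynomial SA.G ℕ} {gB : ℕ → MvPolynomial SB.G ℕ}

theorem vtxg_ne {l : List ℕ} {r : ℕ} {S : Net} {g : ℕ → MvPolynomial S.G ℕ} (h : VtxG l r S g)
    (k : ℕ) (hk : k < l.length - 2) : g k ≠ 0 := by
  obtain ⟨-, -, -, -, ⟨e, he⟩ | ⟨hl, -, h0⟩⟩ := h
  · have := he ⟨k, hk⟩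
    simp only at this
    rw [this]; exact X_ne_zero _
  · have : k = 0 := by omega
    subst this
    rw [h0]; exact one_ne_zero

theorem gvL_pos (SA SB : Net) (q : ℕ) (f : MvPolynomial SA.G ℕ) (hf : f ≠ 0) :
    PosF (gvL SA SB q f) := by
  rw [gvL]
  exact PosF.eval₂ _ (fun _ => PosF.x _) f hf

theorem gvR_pos (SA SB : Net) (q : ℕ) (f : MvPolynomial SB.G ℕ) (hf : f ≠ 0) :
    PosF (gvR SA SB q f) := by
  rw [gvR]
  exact PosF.eval₂ _ (fun _ => PosF.x _) f hf

theorem gvL_gap (SA SB : Net) (q : ℕ) (f : MvPolynomial SA.G ℕ) :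
    gvL SA SB q f ∈ (Net.tsum SA SB q).flat.gapField := by
  rw [gvL]
  exact gap_eval₂ _ _ (fun u => gap_x (Net.tsum SA SB q).flat
    (show (Net.tsum SA SB q).flat.G from Sum.inl u)) f

theorem gvR_gap (SA SB : Net) (q : ℕ) (f : MvPolynomial SB.G ℕ) :
    gvR SA SB q f ∈ (Net.tsum SA SB q).flat.gapField := by
  rw [gvR]
  exact gap_eval₂ _ _ (fun u => gap_x (Net.tsum SA SB q).flat
    (show (Net.tsum SA SB q).flat.G from Sum.inr u)) f

theorem gvR_sum (SA SB : Net) (q : ℕ) (s : Finset ℕ) (g : ℕ → MvPolynomial SB.G ℕ) :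
    gvR SA SB q (∑ h ∈ s, g h) = ∑ h ∈ s, gvR SA SB q (g h) := by
  simp only [gvR, eval₂_sum]

theorem sum_pos (H : GenFac L A R ρ q d r SA SB gA gB) (s : Finset ℕ) (hs : s.Nonempty)
    (hb : ∀ h ∈ s, h < L.length + R.length) : PosF (gvR SA SB q (∑ h ∈ s, gB h)) := by
  rw [gvR_sum]
  apply PosF.sum _ hs
  intro h hh
  apply gvR_pos
  apply vtxg_ne H.vB
  have := hb h hh
  simp only [List.length_append, List.length_cons, List.length_nil]
  omega

theorem w_pos (H : GenFac L A R ρ q d r SA SB gA gB)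
    (v : (Net.gen (L ++ A ++ R ++ [ρ]) (d + r)).flat.V) :
    (Net.tsum SA SB q).flat.Pos ((genFD L A R ρ q d r SA SB gA gB).w v) := by
  rw [flat_Pos]
  rcases v with i | h
  · show PosF (xx (Sum.inl i) *
        (if i ∈ L then
            (gvR SA SB q (∑ h ∈ Finset.Ico (L.idxOf i) L.length, gB h) ^ d)⁻¹
         else if i ∈ R then
            (gvR SA SB q (∑ h ∈ Finset.Ico L.length (L.length + 1 + R.idxOf i), gB h) ^ d)⁻¹
         else 1))
    apply PosF.mul (PosF.x _)
    split_ifs with h1 h2
    · apply PosF.inv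
      apply PosF.pow
      have := List.idxOf_lt_length_of_mem h1
      apply sum_pos H
      · exact Finset.nonempty_Ico.mpr this
      · intro h hh
        rw [Finset.mem_Ico] at hh
        omega
    · apply PosF.inv
      apply PosF.pow
      have := List.idxOf_lt_length_of_mem h2
      apply sum_pos H
      · exact Finset.nonempty_Ico.mpr (by omega)
      · intro h hh
        rw [Finset.mem_Ico] at hh
        omega
    · exact PosF.one
  · have hlt := (show Fin ((L ++ A ++ R ++ [ρ]).length - 2) from h).2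
    simp only [List.length_append, List.length_cons, List.length_nil] at hlt
    show PosF (if (show Fin ((L ++ A ++ R ++ [ρ]).length - 2) from h).1 < L.length then
        gvR SA SB q (gB (show Fin ((L ++ A ++ R ++ [ρ]).length - 2) from h).1)
        else if (show Fin ((L ++ A ++ R ++ [ρ]).length - 2) from h).1 + 1 < L.length + A.length then
          gvL SA SB q (gA ((show Fin ((L ++ A ++ R ++ [ρ]).length - 2) from h).1 - L.length))
        else gvR SA SB q (gB ((show Fin ((L ++ A ++ R ++ [ρ]).length - 2) from h).1 + 1 - A.length)))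
    generalize (show Fin ((L ++ A ++ R ++ [ρ]).length - 2) from h).1 = k at hlt ⊢
    split_ifs with h1 h2
    · apply gvR_pos
      apply vtxg_ne H.vB
      simp only [List.length_append, List.length_cons, List.length_nil]
      omega
    · apply gvL_pos
      apply vtxg_ne H.vA
      simp only [List.length_append, List.length_cons, List.length_nil]
      omega
    · apply gvR_pos
      apply vtxg_ne H.vB
      simp only [List.length_append, List.length_cons, List.length_nil]
      omega

theorem w_lab (i : ℕ) : (genFD L A R ρ q d r SA SB gA gB).w (Sum.inl i) /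
      (Net.tsum SA SB q).flat.x (Sum.inl i) ∈ (Net.tsum SA SB q).flat.gapField := by
  show (xx (Sum.inl i) *
        (if i ∈ L then
            (gvR SA SB q (∑ h ∈ Finset.Ico (L.idxOf i) L.length, gB h) ^ d)⁻¹
         else if i ∈ R then
            (gvR SA SB q (∑ h ∈ Finset.Ico L.length (L.length + 1 + R.idxOf i), gB h) ^ d)⁻¹
         else 1)) / xx (Sum.inl i) ∈ _
  rw [mul_div_cancel_left₀ _ (PosF.x _).ne_zero]
  split_ifs
  · exact inv_mem (pow_mem (gvR_gap _ _ _ _) _)
  · exact inv_mem (pow_mem (gvR_gap _ _ _ _) _)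
  · exact one_mem _

theorem w_gap (h) : (genFD L A R ρ q d r SA SB gA gB).w (Sum.inr h) ∈
    (Net.tsum SA SB q).flat.gapField := by
  show (if (show Fin ((L ++ A ++ R ++ [ρ]).length - 2) from h).1 < L.length then
        gvR SA SB q (gB (show Fin ((L ++ A ++ R ++ [ρ]).length - 2) from h).1)
        else if (show Fin ((L ++ A ++ R ++ [ρ]).length - 2) from h).1 + 1 < L.length + A.length then
          gvL SA SB q (gA ((show Fin ((L ++ A ++ R ++ [ρ]).length - 2) from h).1 - L.length))
        else gvR SA SB q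
          (gB ((show Fin ((L ++ A ++ R ++ [ρ]).length - 2) from h).1 + 1 - A.length))) ∈ _
  split_ifs
  · exact gvR_gap _ _ _ _
  · exact gvL_gap _ _ _ _
  · exact gvR_gap _ _ _ _

theorem msub (hv : VtxGStmt) (H : GenFac L A R ρ q d r SA SB gA gB) :
    (Net.tsum SA SB q).M ⊂ (Net.gen (L ++ A ++ R ++ [ρ]) (d + r)).M := by
  classical
  obtain ⟨hnd, h2, h3⟩ := H.valid
  have hq := H.hq
  simp only [List.mem_append, List.mem_singleton, not_or] at hq
  obtain ⟨⟨⟨hqL, hqA⟩, hqR⟩, hqρ⟩ := hq
  -- the sets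
  set EA := A.toFinset with hEA
  set EB := (L ++ R ++ [ρ]).toFinset with hEB
  have hlen : (L ++ A ++ R ++ [ρ]).length = L.length + A.length + R.length + 1 := by
    simp only [List.length_append, List.length_cons, List.length_nil]
  have hdisj : Disjoint EA EB := by
    rw [Finset.disjoint_left]
    intro x hx hx'
    rw [hEA, List.mem_toFinset] at hx
    rw [hEB, List.mem_toFinset] at hx'
    simp only [List.nodup_append, List.mem_append, List.mem_singleton] at hnd hx'
    rcases hx' with (hx' | hx') | hx'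
    · exact hnd.1.1.2.2 x hx' x hx rfl
    · exact hnd.1.2.2 x (Or.inr hx) x hx' rfl
    · exact hnd.2.2 x (Or.inl (Or.inr hx)) x hx' rfl
  have hE : (L ++ A ++ R ++ [ρ]).toFinset = EA ∪ EB := by
    ext x
    simp only [hEA, hEB, List.mem_toFinset, Finset.mem_union, List.mem_append,
      List.mem_singleton]
    tauto
  have hndA : A.Nodup := by
    have := hnd
    simp only [List.nodup_append] at this
    exact this.1.1.2.1
  have hcA : EA.card = A.length := List.toFinset_card_of_nodup hndA
  have hcard : EA.card + EB.card = L.length + A.length + R.length + 1 := by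
    rw [← Finset.card_union_of_disjoint hdisj, ← hE, List.toFinset_card_of_nodup hnd, hlen]
  have hndAq : (A ++ [q]).Nodup := by
    rw [List.nodup_append]
    refine ⟨hndA, List.nodup_singleton _, ?_⟩
    intro a ha b hb
    rw [List.mem_singleton] at hb
    rintro rfl
    exact hqA (hb ▸ ha)
  have hndB : (L ++ [q] ++ R ++ [ρ]).Nodup := by
    have h1 := hnd
    simp only [List.nodup_append, List.mem_append, List.mem_singleton] at h1 ⊢
    refine ⟨⟨⟨h1.1.1.1, List.nodup_singleton _, ?_⟩, h1.1.2.1, ?_⟩, List.nodup_singleton _, ?_⟩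
    · rintro a ha b rfl rfl
      exact hqL ha
    · rintro a (ha | rfl) b hb
      · exact h1.1.2.2 a (Or.inl ha) b hb
      · rintro rfl
        exact hqR hb
    · rintro a ((ha | rfl) | ha) b rfl
      · exact h1.2.2 a (Or.inl (Or.inl ha)) _ rfl
      · exact hqρ
      · exact h1.2.2 a (Or.inr ha) _ rfl
  obtain ⟨-, -, ha1, ha2, ha3, ha4⟩ := hv _ _ _ H.hA hndAq
  obtain ⟨-, -, hb1, hb2, hb3, hb4⟩ := hv _ _ _ H.hB hndB
  simp only [List.length_append, List.length_cons, List.length_nil] at ha1 ha2 ha3 ha4 hb1 hb2 hb3 hb4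
  have hMA := H.vA.2.1
  have hMB := H.vB.2.1
  have hqEA : q ∉ EA := by rw [hEA, List.mem_toFinset]; exact hqA
  have hqEB : q ∉ EB := by
    rw [hEB, List.mem_toFinset]
    simp only [List.mem_append, List.mem_singleton, not_or]
    exact ⟨⟨hqL, hqR⟩, hqρ⟩
  have hAq : (A ++ [q]).toFinset = insert q EA := by
    ext x; simp [hEA]
  have hBq : (L ++ [q] ++ R ++ [ρ]).toFinset = insert q EB := by
    ext x
    simp only [hEB, List.mem_toFinset, Finset.mem_insert, List.mem_append, List.mem_singleton]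
    tauto
  rw [hAq] at hMA
  rw [hBq] at hMB
  -- the key property
  have key : ∀ I ∈ (Net.tsum SA SB q).M, I ⊆ EA ∪ EB ∧ I.card = d + r ∧
      ((I ∩ EA).card = d ∨ (I ∩ EA).card = d + 1) := by
    intro I hI
    rw [tsum_M] at hI
    obtain ⟨J, hJ, K, hK, hX, rfl⟩ := hI
    rw [hMA, Finset.mem_powersetCard] at hJ
    rw [hMB, Finset.mem_powersetCard] at hK
    have hJ' : J.erase q ⊆ EA := by
      intro x hx
      rw [Finset.mem_erase] at hx
      exact (Finset.mem_insert.mp (hJ.1 hx.2)).resolve_left hx.1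
    have hK' : K.erase q ⊆ EB := by
      intro x hx
      rw [Finset.mem_erase] at hx
      exact (Finset.mem_insert.mp (hK.1 hx.2)).resolve_left hx.1
    have e1 : (J ∪ K).erase q = J.erase q ∪ K.erase q := Finset.erase_union_distrib J K q
    have e2 : (J ∪ K).erase q ∩ EA = J.erase q := by
      rw [e1, Finset.union_inter_distrib_right, Finset.inter_eq_left.mpr hJ',
        Finset.disjoint_iff_inter_eq_empty.mp
          (Finset.disjoint_of_subset_left hK' hdisj.symm), Finset.union_empty]
    have e3 : ((J ∪ K).erase q).card = (J.erase q).card + (K.erase q).card := by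
      rw [e1, Finset.card_union_of_disjoint
        (Finset.disjoint_of_subset_left hJ' (Finset.disjoint_of_subset_right hK' hdisj))]
    rw [e2, e3]
    refine ⟨?_, ?_, ?_⟩
    · rw [e1]; exact Finset.union_subset_union hJ' hK'
    · rcases hX with ⟨h1, h2⟩ | ⟨h1, h2⟩
      · rw [Finset.card_erase_of_mem h1, Finset.erase_eq_of_notMem h2, hJ.2, hK.2]; omega
      · rw [Finset.card_erase_of_mem h2, Finset.erase_eq_of_notMem h1, hJ.2, hK.2]; omega
    · rcases hX with ⟨h1, h2⟩ | ⟨h1, h2⟩
      · left; rw [Finset.card_erase_of_mem h1, hJ.2]; omega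
      · right; rw [Finset.erase_eq_of_notMem h1, hJ.2]
  rw [Finset.ssubset_iff_of_subset]
  swap
  · intro I hI
    obtain ⟨h1, h2, -⟩ := key I hI
    show I ∈ (L ++ A ++ R ++ [ρ]).toFinset.powersetCard (d + r)
    rw [Finset.mem_powersetCard, hE]
    exact ⟨h1, h2⟩
  -- a base outside
  have hex : ∃ a b : ℕ, a ≤ EA.card ∧ b ≤ EB.card ∧ a + b = d + r ∧ a ≠ d ∧ a ≠ d + 1 := by
    by_cases h : d + 2 ≤ A.length ∧ 2 ≤ r
    · exact ⟨d + 2, r - 2, by omega, by omega, by omega, by omega, by omega⟩
    · exact ⟨d - 1, r + 1, by omega, by omega, by omega, by omega, by omega⟩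
  obtain ⟨a, b, ha, hb, hab, hne, hne'⟩ := hex
  obtain ⟨J, hJ, hJc⟩ := Finset.exists_subset_card_eq ha
  obtain ⟨K, hK, hKc⟩ := Finset.exists_subset_card_eq hb
  refine ⟨J ∪ K, ?_, ?_⟩
  · show J ∪ K ∈ (L ++ A ++ R ++ [ρ]).toFinset.powersetCard (d + r)
    rw [Finset.mem_powersetCard, hE]
    refine ⟨Finset.union_subset_union hJ hK, ?_⟩
    rw [Finset.card_union_of_disjoint
      (Finset.disjoint_of_subset_left hJ (Finset.disjoint_of_subset_right hK hdisj)), hJc, hKc, hab]
  · intro hI
    obtain ⟨-, -, h⟩ := key _ hI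
    rw [Finset.union_inter_distrib_right, Finset.inter_eq_left.mpr hJ,
        Finset.disjoint_iff_inter_eq_empty.mp
          (Finset.disjoint_of_subset_left hK hdisj.symm), Finset.union_empty, hJc] at h
    omega

/-- CG0 -/
theorem cg0 (hv : VtxGStmt) : Cg0Stmt := by
  intro L A R ρ q d r SA SB gA gB H
  exact ⟨w_pos H, w_lab, w_gap, msub hv H⟩

end ABCT.H59
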